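import Pool.Agent.Q161.SX.Stm

/-!
Project SX (helper161), job TRA: transport of abstract sections.
-/

set_option autoImplicit false

namespace Pool.Agent.Q16.SX

open Polynomial NumberField IsDedekindDomain Finset
open Pool.Agent.W623.SecC (IsU)
open Pool.Agent.Q161.SX

universe u v w

theorem fd_map {K : Type*} {B : Type*} {B' : Type*} [Field K] [Field B] [Field B'] [Algebra K B]
    [Algebra K B'] (g : B →ₐ[K] B') (E : IntermediateField K B) (h : FiniteDimensional K E) :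
    FiniteDimensional K (E.map g) :=
  LinearEquiv.finiteDimensional (IntermediateField.equivMap E g).toLinearEquiv

section

variable {A : Type u} {A' : Type w} [Field A] [Field A'] [Algebra ℚ A] [Algebra ℚ A']
  (e : A ≃ₐ[ℚ] A')

/-- transport of the valuation ring -/
def cV (V : ValuationSubring A) : ValuationSubring A' := V.comap (e.symm : A' →+* A)

theorem mem_cV (V : ValuationSubring A) (z : A') : z ∈ cV e V ↔ e.symm z ∈ V := Iff.rfl

theorem non_cV (V : ValuationSubring A) (z : A') : z ∈ (cV e V).nonunits ↔ e.symm z ∈ V.nonunits := by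
  rw [ValuationSubring.mem_nonunits_iff_or, ValuationSubring.mem_nonunits_iff_or, mem_cV, map_inv₀,
    map_eq_zero_iff e.symm e.symm.injective]

theorem isU_cV (V : ValuationSubring A) (z : A) : IsU (cV e V) (e z) ↔ IsU V z := by
  unfold IsU
  rw [mem_cV, mem_cV, map_inv₀, e.symm_apply_apply]
  simp

/-- transport of the automorphism -/
def cA : (A ≃ₐ[ℚ] A) ≃* (A' ≃ₐ[ℚ] A') := AlgEquiv.autCongr e

theorem cA_apply (σ : A ≃ₐ[ℚ] A) (z : A') : cA e σ z = e (σ (e.symm z)) := rfl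

theorem root (f : ℤ[X]) (z : A) (h : aeval z f = 0) : aeval (e z) f = 0 := by
  have h1 : aeval (e z) f = (e : A →+* A') (aeval z f) := by
    rw [aeval_def, aeval_def, hom_eval₂]
    congr 1
    exact RingHom.ext_int _ _
  rw [h1, h, map_zero]

theorem root' (f : ℤ[X]) (z : A') (h : aeval z f = 0) : aeval (e.symm z) f = 0 := root e.symm f z h

/-- transport of the zeros -/
def cR {f : ℤ[X]} (i : Rt f A) : Rt f A' := ⟨e i.1, root e f i.1 i.2⟩

/-- transport of the zeros -/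
def cR' {f : ℤ[X]} (i : Rt f A') : Rt f A := ⟨e.symm i.1, root' e f i.1 i.2⟩

theorem cR_cR' {f : ℤ[X]} (i : Rt f A') : cR e (cR' e i) = i := Subtype.ext (e.apply_symm_apply _)

theorem cR'_cR {f : ℤ[X]} (i : Rt f A) : cR' e (cR e i) = i := Subtype.ext (e.symm_apply_apply _)

theorem cR_inj {f : ℤ[X]} {i j : Rt f A} (h : cR e i = cR e j) : i = j := by
  rw [← cR'_cR e i, h, cR'_cR]

theorem ra_cR {f : ℤ[X]} (φ : A ≃ₐ[ℚ] A) (i : Rt f A) : ra (cA e φ) (cR e i) = cR e (ra φ i) := by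
  apply Subtype.ext
  show cA e φ (e i.1) = e (φ i.1)
  rw [cA_apply, e.symm_apply_apply]

theorem spl_map (f : ℤ[X]) : spl f A' = (spl f A).map (e : A →ₐ[ℚ] A') := by
  unfold spl
  rw [IntermediateField.adjoin_map]
  congr 1
  ext z
  simp only [Set.mem_ofPred_eq, Set.mem_image]
  constructor
  · intro h
    exact ⟨e.symm z, root' e f z h, e.apply_symm_apply z⟩
  · rintro ⟨y, hy, rfl⟩
    exact root e f y hy

theorem mem_spl {f : ℤ[X]} {a : A} (h : a ∈ spl f A) : e a ∈ spl f A' := by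
  rw [spl_map e]
  exact ⟨a, h, rfl⟩

theorem fix_spl {f : ℤ[X]} {σ : A ≃ₐ[ℚ] A} (h : cA e σ ∈ (spl f A').fixingSubgroup) :
    σ ∈ (spl f A).fixingSubgroup := by
  rw [IntermediateField.mem_fixingSubgroup_iff] at h ⊢
  intro x hx
  have h1 := h (e x) (mem_spl e hx)
  rw [cA_apply, e.symm_apply_apply] at h1
  exact e.injective h1

theorem fix_spl' {f : ℤ[X]} {σ : A ≃ₐ[ℚ] A} (h : σ ∈ (spl f A).fixingSubgroup) :
    cA e σ ∈ (spl f A').fixingSubgroup := by
  rw [IntermediateField.mem_fixingSubgroup_iff] at h ⊢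
  intro x hx
  rw [spl_map e] at hx
  obtain ⟨y, hy, rfl⟩ := hx
  have h1 := h y hy
  rw [cA_apply]
  show e (σ (e.symm (e y))) = e y
  rw [e.symm_apply_apply, h1]

variable {M : Type v} [Field M]

/-- transport of a section -/
def cS {f : ℤ[X]} (S' : Sec f A' M) : Sec f A M where
  s := S'.s.comp (cA e).toMonoidHom
  ι := S'.ι.comp (e : A →+* A')
  hι σ a := by
    show S'.s (cA e σ) (S'.ι (e a)) = S'.ι (e (σ a))
    rw [S'.hι, cA_apply, e.symm_apply_apply]
  cont z := by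
    obtain ⟨E, hE, h⟩ := S'.cont z
    refine ⟨E.map (e.symm : A' →ₐ[ℚ] A), ?_, fun σ hσ => ?_⟩
    · exact fd_map _ E hE
    · show S'.s (cA e σ) z = z
      apply h
      rw [IntermediateField.mem_fixingSubgroup_iff] at hσ ⊢
      intro x hx
      have h1 := hσ (e.symm x) ⟨x, hx, rfl⟩
      rw [cA_apply, h1, e.apply_symm_apply]
  x := S'.x
  hx σ := S'.hx _
  htr a := S'.htr (e a)
  hsq z z' hz hz' := S'.hsq (e z) (e z') (root e f z hz) (root e f z' hz')

theorem cS_Kc {f : ℤ[X]} (S' : Sec f A' M) {i j : Rt f A} {a : A} (h : (cS e S').Kc i j a) :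
    S'.Kc (cR e i) (cR e j) (e a) := by
  obtain ⟨h1, h2, β, h3, h4, h5⟩ := h
  refine ⟨mem_spl e h1, fun h => h2 ((map_eq_zero_iff e e.injective).1 h), β, h3, ?_, h5⟩
  intro σ hσ
  obtain ⟨τ, rfl⟩ := (cA e).surjective σ
  exact h4 τ (fix_spl e hσ)

theorem PV_cV {V : ValuationSubring A} {l : ℕ} {a : A} {t : ℤ} (h : PV (cV e V) l (e a) t) :
    PV V l a t := by
  obtain ⟨m, h1⟩ := h
  refine ⟨m, ?_⟩
  rw [← isU_cV e]
  convert h1 using 1
  rw [map_div₀, map_zpow₀, map_natCast]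

theorem Frb_cV {V : ValuationSubring A} {l : ℕ} {φ : A ≃ₐ[ℚ] A} (h : Frb V l φ) :
    Frb (cV e V) l (cA e φ) := by
  refine ⟨fun z => ?_, fun z hz => ?_⟩
  · rw [mem_cV, mem_cV, cA_apply, e.symm_apply_apply]
    exact h.1 _
  · rw [non_cV, map_sub, map_pow, cA_apply, e.symm_apply_apply]
    exact h.2 _ hz

end

theorem tra : S_TRA.{u, v, w} := by
  intro f A A' M _ _ _ _ _ e S' D B hS
  refine ⟨cS e S', fun l hl hlB V hV φ hφ => ?_⟩
  have hV' : (l : A') ∈ (cV e V).nonunits := by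
    rw [non_cV, map_natCast]
    exact hV
  have hL := hS l hl hlB (cV e V) hV' (cA e φ) (Frb_cV e hφ)
  refine ⟨fun hD i j a ha => PV_cV e (hL.even hD _ _ _ (cS_Kc e S' ha)), fun hD => ?_⟩
  obtain ⟨r, h1, h2, h3, γ, h4, h5⟩ := hL.odd hD
  have hr : cR e (cR' e r) = r := cR_cR' e r
  have hne : ∀ i : Rt f A, i ≠ cR' e r → cR e i ≠ r := by
    intro i hi h
    apply hi
    rw [← h, cR'_cR]
  refine ⟨cR' e r, ?_, fun i j a hi hj ha => PV_cV e (h2 _ _ _ (hne i hi) (hne j hj)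
    (cS_Kc e S' ha)), fun i a hi ha => PV_cV e (h3 _ _ (hne i hi) ?_), fun i => γ (cR e i),
    fun i => h4 _, fun i j hi hj => ?_⟩
  · apply cR_inj e
    rw [← ra_cR, hr, h1]
  · have h6 := cS_Kc e S' ha
    rw [hr] at h6
    exact h6
  · obtain ⟨h6, h7⟩ := h5 (cR e i) (cR e j) (hne i hi) (hne j hj)
    refine ⟨?_, ?_⟩
    · rw [h6]
      show _ = (S'.x - S'.ι (e i.1)) / (S'.x - S'.ι (e j.1)) *
        S'.ι (e ((e.symm r.1 - j.1) / (e.symm r.1 - i.1)))
      rw [map_div₀ e, map_sub e, map_sub e, e.apply_symm_apply]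
      rfl
    · show S'.s (cA e φ) _ = _
      rw [h7, ra_cR, ra_cR]

end Pool.Agent.Q16.SX
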